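import Mathlib

namespace Pool.Agent.Results.MP_719c39_co.Alternating

/-- A directed line in the plane: a base point and a nonzero direction vector. -/
structure DLine where
  base : ℝ × ℝ
  dir : ℝ × ℝ
  dir_ne : dir ≠ 0

/-- The set of points of a directed line. -/
def DLine.carrier (l : DLine) : Set (ℝ × ℝ) := {x | ∃ t : ℝ, x = l.base + t • l.dir}

/-- The open half-plane to the left of a directed line. -/
def DLine.left (l : DLine) : Set (ℝ × ℝ) :=
  {x | 0 < l.dir.1 * (x.2 - l.base.2) - l.dir.2 * (x.1 - l.base.1)}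

/-- The open half-plane to the right of a directed line. -/
def DLine.right (l : DLine) : Set (ℝ × ℝ) :=
  {x | l.dir.1 * (x.2 - l.base.2) - l.dir.2 * (x.1 - l.base.1) < 0}

open Finset Equiv

section core
open Classical
variable {n : ℕ}

noncomputable def N (s : Fin n → Fin n → Prop) (I : Finset (Fin n)) : Finset (Fin n) :=
  univ.filter (fun p => ∃ l ∈ I, s l p)

noncomputable def Sep (s : Fin n → Fin n → Prop) (X : Finset (Fin n)) : Finset (Fin n) :=
  univ.filter (fun l => ∃ p ∈ X, ∃ q ∈ X, s l p ∧ ¬ s l q)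

lemma hallmin (s : Fin n → Fin n → Prop) (hd : ∀ I, I.card ≤ (N s I).card + 1) :
    ∃ I0, (I0 = univ ∨ (N s I0).card < I0.card) ∧ ∀ I, (N s I).card < I.card → I0 ⊆ I := by
  by_cases h : (univ.filter (fun I : Finset (Fin n) => (N s I).card < I.card)).Nonempty
  · obtain ⟨I0, h0, hmin⟩ := exists_min_image _ Finset.card h
    simp only [mem_filter, mem_univ, true_and] at h0 hmin
    refine ⟨I0, Or.inr h0, fun I hI => ?_⟩
    have e1 : N s (I0 ∩ I) ⊆ N s I0 ∩ N s I := by
      intro p hp
      simp only [N, mem_filter, mem_univ, true_and, mem_inter] at hp ⊢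
      obtain ⟨l, ⟨a, b⟩, c⟩ := hp
      exact ⟨⟨l, a, c⟩, ⟨l, b, c⟩⟩
    have e2 : N s (I0 ∪ I) ⊆ N s I0 ∪ N s I := by
      intro p hp
      simp only [N, mem_filter, mem_univ, true_and, mem_union] at hp ⊢
      obtain ⟨l, a | a, c⟩ := hp
      · exact Or.inl ⟨l, a, c⟩
      · exact Or.inr ⟨l, a, c⟩
    have c1 := card_le_card e1
    have c2 := card_le_card e2
    have c3 := card_union_add_card_inter (N s I0) (N s I)
    have c4 := card_union_add_card_inter I0 I
    have c5 := hd (I0 ∪ I)
    have c6 := hmin (I0 ∩ I) (by omega)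
    have := eq_of_subset_of_card_le (inter_subset_left (s₁ := I0) (s₂ := I)) c6
    rw [← this]
    exact inter_subset_right
  · refine ⟨univ, Or.inl rfl, fun I hI => ?_⟩
    exact absurd ⟨I, by simpa using hI⟩ h

lemma hall_wild (s : Fin n → Fin n → Prop) (l0 : Fin n)
    (h : ∀ I, (N s I).card < I.card → l0 ∈ I) :
    ∃ f : Perm (Fin n), ∀ l, l ≠ l0 → s l (f l) := by
  have := (Finset.all_card_le_biUnion_card_iff_exists_injective
    (fun l : Fin n => univ.filter (fun p : Fin n => l = l0 ∨ s l p))).1 (by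
      intro I
      by_cases hl : l0 ∈ I
      · refine (card_le_univ I).trans (card_le_card ?_)
        intro p _
        simp only [mem_biUnion, mem_filter, mem_univ, true_and]
        exact ⟨l0, hl, Or.inl rfl⟩
      · have h1 : I.card ≤ (N s I).card := by
          by_contra hc
          exact hl (h I (by omega))
        refine h1.trans (card_le_card ?_)
        intro p hp
        simp only [N, mem_biUnion, mem_filter, mem_univ, true_and] at hp ⊢
        obtain ⟨l, a, b⟩ := hp
        exact ⟨l, a, Or.inr b⟩)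
  obtain ⟨f, hf, hf2⟩ := this
  refine ⟨Equiv.ofBijective f (Finite.injective_iff_bijective.1 hf), fun l hl => ?_⟩
  have := hf2 l
  simp only [mem_filter, mem_univ, true_and] at this
  exact this.resolve_left hl

lemma two_sided (s : Fin n → Fin n → Prop) (H : ∀ X, X.card ≤ (Sep s X).card + 1)
    (I J : Finset (Fin n)) :
    (I ∪ J).card ≤ (N s I).card + (N (fun l p => ¬ s l p) J).card + 1 := by
  set A := N s I ∪ N (fun l p => ¬ s l p) J with hA
  have h1 := H Aᶜ
  have h2 : Sep s Aᶜ ⊆ (I ∪ J)ᶜ := by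
    intro l hl
    simp only [Sep, hA, N, mem_filter, mem_univ, true_and, mem_compl, mem_union, not_or,
      not_exists, not_and] at hl ⊢
    obtain ⟨p, ⟨hp, -⟩, q, ⟨-, hq⟩, a, b⟩ := hl
    exact ⟨fun hI => hp l hI a, fun hJ => hq l hJ b⟩
  have h3 := card_le_card h2
  rw [card_compl] at h1 h3
  have h4 := card_union_le (N s I) (N (fun l p => ¬ s l p) J)
  have h5 := card_le_univ A
  have h6 := card_le_univ (I ∪ J)
  rw [← hA] at h4
  omega

lemma factor (s : Fin n → Fin n → Prop) (hn : 0 < n) (H : ∀ X, X.card ≤ (Sep s X).card + 1) :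
    ∃ l0, ∃ f g : Perm (Fin n), ∀ l, l ≠ l0 → s l (f l) ∧ ¬ s l (g l) := by
  obtain ⟨I0, hI, hI2⟩ := hallmin s (fun I => by
    have := two_sided s H I ∅
    simpa [N] using this)
  obtain ⟨J0, hJ, hJ2⟩ := hallmin (fun l p => ¬ s l p) (fun J => by
    have := two_sided s H ∅ J
    simpa [N] using this)
  have hne : (I0 ∩ J0).Nonempty := by
    rcases hI with hI | hI <;> rcases hJ with hJ | hJ
    · subst hI hJ
      exact ⟨⟨0, hn⟩, by simp⟩
    · subst hI
      rw [univ_inter, ← card_pos]
      omega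
    · subst hJ
      rw [inter_univ, ← card_pos]
      omega
    · have := two_sided s H I0 J0
      have c4 := card_union_add_card_inter I0 J0
      rw [← card_pos]
      omega
  obtain ⟨l0, hl0⟩ := hne
  rw [mem_inter] at hl0
  obtain ⟨f, hf⟩ := hall_wild s l0 (fun I h => hI2 I h hl0.1)
  obtain ⟨g, hg⟩ := hall_wild (fun l p => ¬ s l p) l0 (fun I h => hJ2 I h hl0.2)
  exact ⟨l0, f, g, fun l hl => ⟨hf l hl, hg l hl⟩⟩

lemma merge (π : Perm (Fin n)) (x y : Fin n) (hxy : ¬ π.SameCycle x y) :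
    (∀ z, π.SameCycle x z → (swap x y * π).SameCycle x z) ∧ (swap x y * π).SameCycle x y := by
  have step : ∀ z w, (swap x y * π).SameCycle z w → (swap x y * π).SameCycle z (swap x y (π w)) :=
    fun z w h => Perm.sameCycle_apply_right.2 h
  have h1 : ∀ k : ℕ, (swap x y * π).SameCycle x ((π ^ k) x) := by
    intro k
    induction k with
    | zero => exact Perm.SameCycle.refl _ _
    | succ k ih =>
      have := step _ _ ih
      rw [pow_succ', Perm.mul_apply]
      by_cases e : π ((π ^ k) x) = x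
      · rw [e]
      · rw [swap_apply_of_ne_of_ne e] at this
        · exact this
        · intro e2
          apply hxy
          refine ⟨((k + 1 : ℕ) : ℤ), ?_⟩
          rw [zpow_natCast, pow_succ', Perm.mul_apply, e2]
  have h2 : ∀ z, π.SameCycle x z → (swap x y * π).SameCycle x z := by
    intro z hz
    obtain ⟨k, -, hk⟩ := hz.exists_pow_eq'
    rw [← hk]
    exact h1 k
  refine ⟨h2, ?_⟩
  have h3 := step _ _ (h2 (π⁻¹ x) ⟨-1, by simp⟩)
  simpa using h3

lemma grow (π : Perm (Fin n)) (l0 x y : Fin n) (hx : π.SameCycle l0 x) (hy : ¬ π.SameCycle l0 y) :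
    (univ.filter (π.SameCycle l0)).card < (univ.filter ((swap x y * π).SameCycle l0)).card := by
  have hxy : ¬ π.SameCycle x y := fun h => hy (hx.trans h)
  obtain ⟨h1, h2⟩ := merge π x y hxy
  have h0 := (h1 l0 hx.symm).symm
  apply card_lt_card
  rw [ssubset_iff_of_subset]
  · exact ⟨y, by simpa using h0.trans h2, by simpa using hy⟩
  · intro z hz
    simp only [mem_filter, mem_univ, true_and] at hz ⊢
    exact h0.trans (h1 z (hx.symm.trans hz))

lemma single (s : Fin n → Fin n → Prop) (l0 : Fin n) (f0 g0 : Perm (Fin n))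
    (h0 : ∀ l, l ≠ l0 → s l (f0 l) ∧ ¬ s l (g0 l)) :
    ∃ f g : Perm (Fin n), (∀ l, l ≠ l0 → s l (f l) ∧ ¬ s l (g l)) ∧
      ∀ l, (f⁻¹ * g).SameCycle l0 l := by
  obtain ⟨⟨f, g⟩, hfg, hmax⟩ := exists_max_image
    (univ.filter (fun q : Perm (Fin n) × Perm (Fin n) =>
      ∀ l, l ≠ l0 → s l (q.1 l) ∧ ¬ s l (q.2 l)))
    (fun q => (univ.filter ((q.1⁻¹ * q.2).SameCycle l0)).card) ⟨(f0, g0), by simpa using h0⟩
  simp only [mem_filter, mem_univ, true_and] at hfg hmax
  refine ⟨f, g, hfg, ?_⟩
  by_contra hc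
  push Not at hc
  obtain ⟨y0, hy0⟩ := hc
  set π := f⁻¹ * g with hπ
  have hne : ∀ y, ¬ π.SameCycle l0 y → y ≠ l0 := by
    rintro y hy rfl
    exact hy (Perm.SameCycle.refl _ _)
  -- swapping outputs
  have hout : ∀ x y, π.SameCycle l0 x → ¬ π.SameCycle l0 y → (x = l0 ∨ ¬ s x (g y)) →
      s y (g x) := by
    intro x y hx hy hxy
    by_contra hs
    have h1 := hmax (f, g * swap x y) (by
      intro l hl
      refine ⟨(hfg l hl).1, ?_⟩
      simp only [Perm.mul_apply]
      by_cases e1 : l = x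
      · subst e1
        rw [swap_apply_left]
        exact hxy.resolve_left hl
      · by_cases e2 : l = y
        · subst e2
          rw [swap_apply_right]
          exact hs
        · rw [swap_apply_of_ne_of_ne e1 e2]
          exact (hfg l hl).2)
    have h2 := grow π l0 (π x) (π y) (Perm.sameCycle_apply_right.2 hx)
      (fun h => hy (Perm.sameCycle_apply_right.1 h))
    rw [← mul_swap_eq_swap_mul, hπ, mul_assoc] at h2
    exact absurd h1 (not_le.2 h2)
  -- swapping inputs
  have hin : ∀ x y, π.SameCycle l0 x → ¬ π.SameCycle l0 y → s y (f x) →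
      x ≠ l0 ∧ ¬ s x (f y) := by
    intro x y hx hy hs
    by_contra hxy
    have hxy' : x = l0 ∨ s x (f y) := by tauto
    have h1 := hmax (f * swap x y, g) (by
      intro l hl
      refine ⟨?_, (hfg l hl).2⟩
      simp only [Perm.mul_apply]
      by_cases e1 : l = x
      · subst e1
        rw [swap_apply_left]
        exact hxy'.resolve_left hl
      · by_cases e2 : l = y
        · subst e2
          rw [swap_apply_right]
          exact hs
        · rw [swap_apply_of_ne_of_ne e1 e2]
          exact (hfg l hl).1)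
    have h2 := grow π l0 x y hx hy
    rw [hπ, ← mul_assoc] at h2
    simp only [mul_inv_rev, swap_inv] at h1
    exact absurd h1 (not_le.2 h2)
  have hfπ : ∀ x, f (π x) = g x := by
    intro x
    simp [hπ]
  have key : ∀ k : ℕ, ∀ y, ¬ π.SameCycle l0 y → s y (g ((π ^ k) l0)) := by
    intro k
    induction k with
    | zero => exact fun y hy => hout l0 y (Perm.SameCycle.refl _ _) hy (Or.inl rfl)
    | succ k ih =>
      intro y hy
      have hx : π.SameCycle l0 ((π ^ (k + 1)) l0) := ⟨((k + 1 : ℕ) : ℤ), by rw [zpow_natCast]⟩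
      apply hout _ y hx hy
      right
      have hy' : ¬ π.SameCycle l0 (π y) := fun h => hy (Perm.sameCycle_apply_right.1 h)
      rw [← hfπ y]
      refine (hin _ _ hx hy' ?_).2
      have e : (π ^ (k + 1)) l0 = π ((π ^ k) l0) := by rw [pow_succ', Perm.mul_apply]
      rw [e, hfπ]
      exact ih _ hy'
  obtain ⟨k, -, hk⟩ := (show π.SameCycle l0 (π⁻¹ l0) from ⟨-1, by simp⟩).exists_pow_eq'
  have h := key k y0 hy0
  rw [hk, ← hfπ, show π (π⁻¹ l0) = l0 by simp] at h
  exact (hin l0 y0 (Perm.SameCycle.refl _ _) hy0 h).1 rfl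

lemma core (s : Fin n → Fin n → Prop) (H : ∀ X, X.card ≤ (Sep s X).card + 1) :
    ∃ σ τ : Perm (Fin n), ∀ (i : ℕ) (h : i + 1 < n),
      s (τ ⟨i, by omega⟩) (σ ⟨i, by omega⟩) ∧ ¬ s (τ ⟨i, by omega⟩) (σ ⟨i + 1, h⟩) := by
  rcases Nat.eq_zero_or_pos n with hn | hn
  · exact ⟨1, 1, fun i h => by omega⟩
  obtain ⟨l0, f0, g0, h0⟩ := factor s hn H
  obtain ⟨f, g, hfg, hc⟩ := single s l0 f0 g0 h0
  set π := f⁻¹ * g with hπ
  have hfπ : ∀ x, f (π x) = g x := by
    intro x
    simp [hπ]
  have hper : l0 ∈ Function.periodicPts π := Function.Injective.mem_periodicPts π.injective l0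
  set m := Function.minimalPeriod π l0 with hm
  have hmpos : 0 < m := Function.minimalPeriod_pos_of_mem_periodicPts hper
  have hnm : n ≤ m := by
    have : (univ : Finset (Fin n)) ⊆ (range m).image (fun k => π^[k] l0) := by
      intro l _
      obtain ⟨k, -, hk⟩ := (hc l).exists_pow_eq'
      refine mem_image.2 ⟨k % m, mem_range.2 (Nat.mod_lt _ hmpos), ?_⟩
      rw [hm, Function.iterate_mod_minimalPeriod_eq, Perm.iterate_eq_pow, hk]
    have h2 := (card_le_card this).trans card_image_le
    simpa using h2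
  have hinj : ∀ a b : ℕ, a < n → b < n → (π ^ a) l0 = (π ^ b) l0 → a = b := by
    intro a b ha hb e
    exact Function.iterate_injOn_Iio_minimalPeriod (f := π) (x := l0)
      (show a < m by omega) (show b < m by omega) (by simpa [Perm.iterate_eq_pow] using e)
  have hT : Function.Injective (fun i : Fin n => (π ^ (i.val + 1)) l0) := by
    intro a b e
    simp only [pow_succ', Perm.mul_apply] at e
    exact Fin.ext (hinj _ _ a.2 b.2 (π.injective e))
  let τ : Perm (Fin n) := Equiv.ofBijective _ (Finite.injective_iff_bijective.1 hT)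
  refine ⟨f * τ, τ, fun i h => ?_⟩
  have hl : τ ⟨i, by omega⟩ ≠ l0 := by
    intro e
    have := hinj (i + 1) 0 h hn (by simpa [τ] using e)
    omega
  refine ⟨(hfg _ hl).1, ?_⟩
  have e : (f * τ) ⟨i + 1, h⟩ = g (τ ⟨i, by omega⟩) := by
    rw [← hfπ, Perm.mul_apply]
    congr 1
    show (π ^ (i + 1 + 1)) l0 = π ((π ^ (i + 1)) l0)
    rw [pow_succ' π (i + 1), Perm.mul_apply]
  rw [e]
  exact (hfg _ hl).2

end core

lemma DLine.tri (l : DLine) (x : ℝ × ℝ) (hx : x ∉ l.carrier) (h : x ∉ l.left) : x ∈ l.right := by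
  by_contra h2
  apply hx
  simp only [DLine.left, DLine.right, Set.mem_ofPred_eq, not_lt] at h h2
  have e : l.dir.1 * (x.2 - l.base.2) - l.dir.2 * (x.1 - l.base.1) = 0 := le_antisymm h h2
  have hd : l.dir.1 ^ 2 + l.dir.2 ^ 2 ≠ 0 := by
    intro h0
    apply l.dir_ne
    exact Prod.ext (by simp only [Prod.fst_zero]; nlinarith) (by simp only [Prod.snd_zero]; nlinarith)
  refine ⟨(l.dir.1 * (x.1 - l.base.1) + l.dir.2 * (x.2 - l.base.2)) / (l.dir.1 ^ 2 + l.dir.2 ^ 2),
    Prod.ext ?_ ?_⟩
  · simp only [Prod.fst_add, Prod.smul_fst, smul_eq_mul]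
    field_simp
    linear_combination (-l.dir.2) * e
  · simp only [Prod.snd_add, Prod.smul_snd, smul_eq_mul]
    field_simp
    linear_combination l.dir.1 * e

lemma DLine.convex_left (l : DLine) : Convex ℝ l.left := by
  intro x hx y hy a b ha hb hab
  simp only [DLine.left, Set.mem_ofPred_eq, Prod.fst_add, Prod.snd_add, Prod.smul_fst,
    Prod.smul_snd, smul_eq_mul] at hx hy ⊢
  have hb' : b = 1 - a := by linarith
  subst hb'
  rcases ha.eq_or_lt with h | h
  · subst h
    simpa using hy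
  · nlinarith [mul_pos h hx, mul_nonneg hb hy.le]

lemma DLine.convex_right (l : DLine) : Convex ℝ l.right := by
  intro x hx y hy a b ha hb hab
  simp only [DLine.right, Set.mem_ofPred_eq, Prod.fst_add, Prod.snd_add, Prod.smul_fst,
    Prod.smul_snd, smul_eq_mul] at hx hy ⊢
  have hb' : b = 1 - a := by linarith
  subst hb'
  rcases ha.eq_or_lt with h | h
  · subst h
    simpa using hy
  · nlinarith [mul_pos h (neg_pos.2 hx), mul_nonneg hb (neg_pos.2 hy).le]

lemma DLine.not_left (l : DLine) (x : ℝ × ℝ) (hx : x ∈ l.carrier) : x ∉ l.left ∧ x ∉ l.right := by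
  obtain ⟨t, rfl⟩ := hx
  simp only [DLine.left, DLine.right, Set.mem_ofPred_eq, Prod.fst_add, Prod.snd_add, Prod.smul_fst,
    Prod.smul_snd, smul_eq_mul, not_lt]
  constructor <;> apply le_of_eq <;> ring

/-- For `n` points and `n` directed lines in general position satisfying the deficiency-one hull
condition there is an alternating ordering with `p i` left and `p (i+1)` right of `l i`. -/
theorem result (n : ℕ) (P : Fin n → ℝ × ℝ) (L : Fin n → DLine)
    (hgen : ∀ i j, P i ∉ (L j).carrier)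
    (hhull : ∀ X : Finset (Fin n), X.card ≤
      {j | ((L j).carrier ∩ convexHull ℝ (P '' (X : Set (Fin n)))).Nonempty}.ncard + 1) :
    ∃ σ τ : Equiv.Perm (Fin n), ∀ (i : ℕ) (h : i + 1 < n),
      P (σ ⟨i, Nat.lt_of_succ_lt h⟩) ∈ (L (τ ⟨i, Nat.lt_of_succ_lt h⟩)).left ∧
      P (σ ⟨i + 1, h⟩) ∈ (L (τ ⟨i, Nat.lt_of_succ_lt h⟩)).right := by
  obtain ⟨σ, τ, h⟩ := core (fun l p => P p ∈ (L l).left) (by
    intro X
    refine (hhull X).trans (Nat.succ_le_succ ?_)
    rw [← Set.ncard_coe_finset]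
    refine Set.ncard_le_ncard ?_ (Set.toFinite _)
    rintro j ⟨x, hx, hx2⟩
    simp only [Sep, coe_filter, mem_univ, true_and, Set.mem_ofPred_eq]
    obtain ⟨a, b⟩ := (L j).not_left x hx
    have h1 : ∃ q ∈ X, P q ∉ (L j).left := by
      by_contra hc
      push Not at hc
      refine a (convexHull_min ?_ (L j).convex_left hx2)
      rintro _ ⟨q, hq, rfl⟩
      exact hc q hq
    have h2 : ∃ q ∈ X, P q ∈ (L j).left := by
      by_contra hc
      push Not at hc
      refine b (convexHull_min ?_ (L j).convex_right hx2)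
      rintro _ ⟨q, hq, rfl⟩
      exact (L j).tri _ (hgen q j) (hc q hq)
    obtain ⟨q, hq, hq2⟩ := h1
    obtain ⟨p, hp, hp2⟩ := h2
    exact ⟨p, hp, q, hq, hp2, hq2⟩)
  exact ⟨σ, τ, fun i hi => ⟨(h i hi).1, (L _).tri _ (hgen _ _) (h i hi).2⟩⟩

end Pool.Agent.Results.MP_719c39_co.Alternating
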